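import Pool.Agent.H102R3.FR.Stmts

/-! Frog model: the exponential change of measure along the visited set (task Wald). -/

set_option autoImplicit false

open MeasureTheory ProbabilityTheory Filter Topology
open scoped ENNReal NNReal

namespace Pool.Agent.H211R3.FRWald

open Pool.Agent.H102R3.FR

section Pi

variable {V X : Type} [Fintype V] [DecidableEq V] [MeasurableSpace X] (μ : Measure X)
  [IsProbabilityMeasure μ]

/-- Adding one independent factor of integral one. -/
theorem key1 (g : X → ℝ≥0∞) (hg : Measurable g) (hg1 : ∫⁻ t, g t ∂μ = 1)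
    (f : (V → X) → ℝ≥0∞) (hf : Measurable f) (a : V)
    (hfa : ∀ x t, f (Function.update x a t) = f x) :
    ∫⁻ x, f x * g (x a) ∂(Measure.pi fun _ : V => μ) = ∫⁻ x, f x ∂(Measure.pi fun _ : V => μ) := by
  have hm : Measurable (fun x : V → X => f x * g (x a)) :=
    hf.mul (hg.comp (measurable_pi_apply a))
  refine lintegral_eq_of_lmarginal_eq (μ := fun _ : V => μ) {a} hm hf ?_
  rw [lmarginal_singleton, lmarginal_singleton]
  funext x
  simp only [hfa, Function.update_self]
  rw [lintegral_const_mul _ hg, hg1, mul_one, lintegral_const, measure_univ, mul_one]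

/-- Adding independent factors of integral one. -/
theorem key (g : X → ℝ≥0∞) (hg : Measurable g) (hg1 : ∫⁻ t, g t ∂μ = 1)
    (f : (V → X) → ℝ≥0∞) (hf : Measurable f) (A : Finset V)
    (hfA : ∀ x x', (∀ v ∈ A, x v = x' v) → f x = f x') (S : Finset V) (hS : Disjoint A S) :
    ∫⁻ x, f x * ∏ v ∈ S, g (x v) ∂(Measure.pi fun _ : V => μ) =
      ∫⁻ x, f x ∂(Measure.pi fun _ : V => μ) := by
  induction S using Finset.induction_on with
  | empty => simp
  | insert a S ha ih =>
    have hS' : Disjoint A S := by
      rw [Finset.disjoint_insert_right] at hS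
      exact hS.2
    have haA : a ∉ A := by
      rw [Finset.disjoint_insert_right] at hS
      exact hS.1
    rw [← ih hS']
    have hm : Measurable (fun x : V → X => f x * ∏ v ∈ S, g (x v)) :=
      hf.mul (Finset.measurable_prod _ fun v _ => hg.comp (measurable_pi_apply v))
    rw [← key1 μ g hg hg1 (fun x : V → X => f x * ∏ v ∈ S, g (x v)) hm a]
    · congr 1
      funext x
      rw [Finset.prod_insert ha]
      ring
    · intro x t
      congr 1
      · apply hfA
        intro v hv
        rw [Function.update_of_ne]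
        rintro rfl
        exact haA hv
      · apply Finset.prod_congr rfl
        intro v hv
        rw [Function.update_of_ne]
        rintro rfl
        exact ha hv

end Pi

section Meas

variable {V : Type} [Fintype V] [DecidableEq V] [MeasurableSpace V] [DiscreteMeasurableSpace V]

theorem measurable_walk (v : V) (k : ℕ) : Measurable (fun c : ℕ × V → V => walk c v k) := by
  induction k with
  | zero => exact measurable_const
  | succ k ih =>
    have h : Measurable (fun p : (ℕ × V → V) × V => p.1 (k, p.2)) :=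
      measurable_from_prod_countable_left (fun x => by
        change Measurable (fun c : ℕ × V → V => c (k, x))
        exact measurable_pi_apply (k, x))
    exact h.comp (measurable_id.prodMk ih)

theorem measurable_ptraj (v : V) (i k : ℕ) :
    Measurable (fun w : V → ℕ × (ℕ × ℕ × V → V) => ptraj w v i k) := by
  have h : Measurable (fun w : V → ℕ × (ℕ × ℕ × V → V) => fun p : ℕ × V => (w v).2 (i, p)) := by
    rw [measurable_pi_iff]
    intro p
    exact (measurable_pi_apply (i, p)).comp (measurable_snd.comp (measurable_pi_apply v))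
  exact (measurable_walk v k).comp h

/-- Vertices visited in at most `n` generations. -/
def VisN (o : V) (τ : ℕ) (ω : Om V) : ℕ → V → Prop
  | 0, v => ∃ k, k ≤ τ ∧ walk ω.2 o k = v
  | n + 1, v => VisN o τ ω n v ∨ ∃ u, VisN o τ ω n u ∧ ∃ i, i < (ω.1 u).1 ∧
      ∃ k, k ≤ τ ∧ ptraj ω.1 u i k = v

theorem visited_iff (o : V) (τ : ℕ) (ω : Om V) (v : V) :
    Visited o τ ω v ↔ ∃ n, VisN o τ ω n v := by
  constructor
  · intro h
    induction h with
    | extra k hk => exact ⟨0, k, hk, rfl⟩
    | step u hu i hi k hk ih =>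
      obtain ⟨n, hn⟩ := ih
      exact ⟨n + 1, Or.inr ⟨u, hn, i, hi, k, hk, rfl⟩⟩
  · rintro ⟨n, hn⟩
    induction n generalizing v with
    | zero =>
      obtain ⟨k, hk, rfl⟩ := hn
      exact Visited.extra k hk
    | succ n ih =>
      rcases hn with hn | ⟨u, hu, i, hi, k, hk, rfl⟩
      · exact ih v hn
      · exact Visited.step u (ih u hu) i hi k hk

theorem measurable_visN (o : V) (τ : ℕ) (n : ℕ) (v : V) :
    Measurable (fun ω : Om V => VisN o τ ω n v) := by
  induction n generalizing v with
  | zero =>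
    refine Measurable.exists fun k => Measurable.and measurable_const ?_
    have h : Measurable (fun ω : Om V => walk ω.2 o k) := (measurable_walk o k).comp measurable_snd
    exact measurableSet_setOfPred.1 (h (measurableSet_singleton v))
  | succ n ih =>
    refine Measurable.or (ih v) (Measurable.exists fun u => Measurable.and (ih u) ?_)
    refine Measurable.exists fun i => Measurable.and ?_ ?_
    · have h : Measurable (fun ω : Om V => (ω.1 u).1) :=
        measurable_fst.comp ((measurable_pi_apply u).comp measurable_fst)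
      exact measurableSet_setOfPred.1 (h (measurableSet_Ioi (a := i)))
    · refine Measurable.exists fun k => Measurable.and measurable_const ?_
      have h : Measurable (fun ω : Om V => ptraj ω.1 u i k) :=
        (measurable_ptraj u i k).comp measurable_fst
      exact measurableSet_setOfPred.1 (h (measurableSet_singleton v))

theorem measurable_visited (o : V) (τ : ℕ) (v : V) :
    Measurable (fun ω : Om V => Visited o τ ω v) := by
  simp only [visited_iff]
  exact Measurable.exists fun n => measurable_visN o τ n v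

theorem measurableSet_rset (o : V) (τ : ℕ) (A : Finset V) :
    MeasurableSet {ω : Om V | rset o τ ω = A} := by
  have h : {ω : Om V | rset o τ ω = A} = {ω : Om V | ∀ v, (Visited o τ ω v ↔ v ∈ A)} := by
    ext ω
    simp only [Set.mem_ofPred_eq, Finset.ext_iff, rset, Finset.mem_filter, Finset.mem_univ,
      true_and]
  rw [h]
  exact measurableSet_setOfPred.2 (Measurable.forall fun v =>
    Measurable.iff (measurable_visited o τ v) measurable_const)

theorem ptraj_congr {w w' : V → ℕ × (ℕ × ℕ × V → V)} {u : V} (h : w u = w' u) (i k : ℕ) :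
    ptraj w u i k = ptraj w' u i k := by
  unfold ptraj
  rw [h]

theorem rset_eq (o : V) (τ : ℕ) (A : Finset V) (x x' : V → ℕ × (ℕ × ℕ × V → V))
    (y : ℕ × V → V) (h : ∀ v ∈ A, x v = x' v) (hA : rset o τ (x, y) = A) :
    rset o τ (x', y) = A := by
  have hmem : ∀ v, Visited o τ (x, y) v ↔ v ∈ A := by
    intro v
    rw [← hA]
    simp [rset]
  have h1 : ∀ v, Visited o τ (x', y) v → v ∈ A := by
    intro v hv
    induction hv with
    | extra k hk => exact (hmem _).1 (Visited.extra (ω := (x, y)) k hk)
    | step u hu i hi k hk ih =>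
      have h2 : x u = x' u := h u ih
      have h3 : ptraj x u i k = ptraj x' u i k := ptraj_congr h2 i k
      have h4 : Visited o τ (x, y) (ptraj x u i k) :=
        Visited.step (ω := (x, y)) u ((hmem u).2 ih) i (by
          change i < (x u).1
          rw [h2]
          exact hi) k hk
      change ptraj x' u i k ∈ A
      rw [← h3]
      exact (hmem _).1 h4
  have h2 : ∀ v, Visited o τ (x, y) v → Visited o τ (x', y) v := by
    intro v hv
    induction hv with
    | extra k hk => exact Visited.extra (ω := (x', y)) k hk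
    | step u hu i hi k hk ih =>
      have h2 : x u = x' u := h u ((hmem u).1 hu)
      have h3 : ptraj x u i k = ptraj x' u i k := ptraj_congr h2 i k
      change Visited o τ (x', y) (ptraj x u i k)
      rw [h3]
      exact Visited.step (ω := (x', y)) u ih i (by
        change i < (x' u).1
        rw [← h2]
        exact hi) k hk
  ext v
  simp only [rset, Finset.mem_filter, Finset.mem_univ, true_and]
  exact ⟨h1 v, fun hv => h2 v ((hmem v).2 hv)⟩

end Meas

section Final

variable {V : Type} [Fintype V] [DecidableEq V] [MeasurableSpace V] [DiscreteMeasurableSpace V]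

/-- The constant `c₀`. -/
noncomputable def c0 (lam : ℝ≥0) : ℝ := lam * (1 - Real.exp (-(1 / 2)))

/-- The weight. -/
noncomputable def wt (lam : ℝ≥0) (p : ℕ × (ℕ × ℕ × V → V)) : ℝ≥0∞ :=
  ENNReal.ofReal (Real.exp (c0 lam - p.1 / 2))

theorem measurable_wt (lam : ℝ≥0) : Measurable (wt (V := V) lam) := by
  have h : Measurable (fun n : ℕ => ENNReal.ofReal (Real.exp (c0 lam - n / 2))) :=
    Measurable.of_discrete
  exact h.comp measurable_fst

theorem lintegral_poisson (lam : ℝ≥0) :
    ∫⁻ n : ℕ, ENNReal.ofReal (Real.exp (c0 lam - n / 2)) ∂(poissonMeasure lam) = 1 := by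
  rw [lintegral_countable']
  simp only [poissonMeasure_singleton]
  have h1 : HasSum (fun n : ℕ => Real.exp (c0 lam - n / 2) *
      (Real.exp (-lam) * (lam : ℝ) ^ n / (n.factorial : ℝ))) 1 := by
    have h2 := (NormedSpace.expSeries_div_hasSum_exp ((lam : ℝ) * Real.exp (-(1 / 2)))).mul_left
      (Real.exp (c0 lam) * Real.exp (-lam))
    have e1 : ∀ n : ℕ, Real.exp (c0 lam - n / 2) *
        (Real.exp (-lam) * (lam : ℝ) ^ n / (n.factorial : ℝ)) =
        Real.exp (c0 lam) * Real.exp (-lam) *
        (((lam : ℝ) * Real.exp (-(1 / 2))) ^ n / (n.factorial : ℝ)) := by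
      intro n
      rw [mul_pow, ← Real.exp_nat_mul, sub_eq_add_neg, Real.exp_add,
        show (n : ℝ) * (-(1 / 2)) = -(n / 2 : ℝ) by ring]
      ring
    have e2 : Real.exp (c0 lam) * Real.exp (-lam) *
        NormedSpace.exp ((lam : ℝ) * Real.exp (-(1 / 2))) = 1 := by
      rw [← Real.exp_eq_exp_ℝ, ← Real.exp_add, ← Real.exp_add, Real.exp_eq_one_iff, c0]
      ring
    simp only [e1]
    rw [e2] at h2
    exact h2
  have h3 : ∀ n : ℕ, ENNReal.ofReal (Real.exp (c0 lam - n / 2)) *
      ENNReal.ofReal (Real.exp (-lam) * (lam : ℝ) ^ n / (n.factorial : ℝ)) =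
      ENNReal.ofReal (Real.exp (c0 lam - n / 2) *
      (Real.exp (-lam) * (lam : ℝ) ^ n / (n.factorial : ℝ))) := fun n =>
    (ENNReal.ofReal_mul (Real.exp_nonneg _)).symm
  simp only [h3]
  rw [← ENNReal.ofReal_tsum_of_nonneg (fun n => by positivity) h1.summable, h1.tsum_eq,
    ENNReal.ofReal_one]

theorem lintegral_wt (G : SimpleGraph V) [DecidableRel G.Adj] (lam : ℝ≥0) :
    ∫⁻ p, wt lam p ∂(vlaw G lam) = 1 := by
  unfold vlaw
  rw [lintegral_prod _ (measurable_wt lam).aemeasurable]
  simp only [wt, lintegral_const, measure_univ, mul_one]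
  exact lintegral_poisson lam

/-- The exponential functional. -/
noncomputable def FF (lam : ℝ≥0) (B : Finset V) (o : V) (τ : ℕ) (ω : Om V) : ℝ≥0∞ :=
  ∏ v ∈ rset o τ ω \ B, wt lam (ω.1 v)

/-- The part of the functional on the event that the visited set is `A`. -/
noncomputable def TT (P : (V → ℕ × (ℕ × ℕ × V → V)) → ℝ≥0∞) (o : V) (τ : ℕ) (y : ℕ × V → V)
    (A : Finset V) (x : V → ℕ × (ℕ × ℕ × V → V)) : ℝ≥0∞ :=
  if rset o τ (x, y) = A then P x else 0

theorem measurable_TT (P : (V → ℕ × (ℕ × ℕ × V → V)) → ℝ≥0∞) (hP : Measurable P) (o : V) (τ : ℕ)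
    (y : ℕ × V → V) (A : Finset V) : Measurable (TT P o τ y A) := by
  refine Measurable.ite ?_ hP measurable_const
  have h : Measurable (fun x : V → ℕ × (ℕ × ℕ × V → V) => ((x, y) : Om V)) :=
    measurable_id.prodMk measurable_const
  exact h (measurableSet_rset o τ A)

theorem measurable_prod_wt (lam : ℝ≥0) (S : Finset V) :
    Measurable (fun x : V → ℕ × (ℕ × ℕ × V → V) => ∏ v ∈ S, wt lam (x v)) :=
  Finset.measurable_prod _ fun v _ => (measurable_wt lam).comp (measurable_pi_apply v)

theorem lintegral_FF_fix (G : SimpleGraph V) [DecidableRel G.Adj] (lam : ℝ≥0) (B : Finset V)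
    (o : V) (τ : ℕ) (y : ℕ × V → V) :
    ∫⁻ x, FF lam B o τ (x, y) ∂(Measure.pi fun _ : V => vlaw G lam) = 1 := by
  have h1 : ∀ x, FF lam B o τ (x, y) =
      ∑ A : Finset V, TT (fun x => ∏ v ∈ A \ B, wt lam (x v)) o τ y A x := by
    intro x
    unfold TT FF
    rw [Finset.sum_ite_eq]
    simp
  simp only [h1]
  rw [lintegral_finsetSum _ fun A _ => measurable_TT _ (measurable_prod_wt lam _) o τ y A]
  have h2 : ∀ A : Finset V,
      ∫⁻ x, TT (fun x => ∏ v ∈ A \ B, wt lam (x v)) o τ y A x ∂(Measure.pi fun _ : V => vlaw G lam)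
      = ∫⁻ x, TT (fun x => ∏ v ∈ Bᶜ, wt lam (x v)) o τ y A x
        ∂(Measure.pi fun _ : V => vlaw G lam) := by
    intro A
    rw [← key (vlaw G lam) (wt lam) (measurable_wt lam) (lintegral_wt G lam)
      (TT (fun x => ∏ v ∈ A \ B, wt lam (x v)) o τ y A)
      (measurable_TT _ (measurable_prod_wt lam _) o τ y A) A ?_ (Aᶜ \ B) ?_]
    · congr 1
      funext x
      unfold TT
      split_ifs with h
      · rw [← Finset.prod_union]
        · congr 1
          ext v
          simp only [Finset.mem_union, Finset.mem_sdiff, Finset.mem_compl]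
          tauto
        · rw [Finset.disjoint_left]
          intro v hv hv'
          simp only [Finset.mem_sdiff, Finset.mem_compl] at hv hv'
          exact hv'.1 hv.1
      · rw [zero_mul]
    · intro x x' hx
      unfold TT
      by_cases h : rset o τ (x, y) = A
      · rw [if_pos h, if_pos (rset_eq o τ A x x' y hx h)]
        apply Finset.prod_congr rfl
        intro v hv
        rw [hx v (Finset.mem_sdiff.1 hv).1]
      · rw [if_neg h, if_neg]
        intro h'
        exact h (rset_eq o τ A x' x y (fun v hv => (hx v hv).symm) h')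
    · rw [Finset.disjoint_left]
      intro v hv hv'
      simp only [Finset.mem_sdiff, Finset.mem_compl] at hv'
      exact hv'.1 hv
  simp only [h2]
  rw [← lintegral_finsetSum _ fun A _ => measurable_TT _ (measurable_prod_wt lam _) o τ y A]
  have h3 : ∀ x : V → ℕ × (ℕ × ℕ × V → V),
      ∑ A : Finset V, TT (fun x => ∏ v ∈ Bᶜ, wt lam (x v)) o τ y A x =
      ∏ v ∈ Bᶜ, wt lam (x v) := by
    intro x
    unfold TT
    rw [Finset.sum_ite_eq]
    simp
  simp only [h3]
  have h4 := key (V := V) (vlaw G lam) (wt lam) (measurable_wt lam) (lintegral_wt G lam)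
    (fun _ => 1) measurable_const ∅ (fun _ _ _ => rfl) Bᶜ (Finset.disjoint_empty_left _)
  simp only [one_mul, lintegral_const, measure_univ, mul_one] at h4
  exact h4

theorem measurable_FF (lam : ℝ≥0) (B : Finset V) (o : V) (τ : ℕ) :
    Measurable (FF lam B o τ) := by
  have h1 : FF lam B o τ = fun ω => ∑ A : Finset V,
      if rset o τ ω = A then ∏ v ∈ A \ B, wt lam (ω.1 v) else 0 := by
    funext ω
    unfold FF
    rw [Finset.sum_ite_eq]
    simp
  rw [h1]
  refine Finset.measurable_sum _ fun A _ => Measurable.ite (measurableSet_rset o τ A) ?_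
    measurable_const
  exact (measurable_prod_wt lam _).comp measurable_fst

theorem lintegral_FF (G : SimpleGraph V) [DecidableRel G.Adj] (lam : ℝ≥0) (B : Finset V)
    (o : V) (τ : ℕ) : ∫⁻ ω, FF lam B o τ ω ∂(frog G lam) = 1 := by
  unfold frog
  rw [lintegral_prod_symm _ (measurable_FF lam B o τ).aemeasurable]
  simp only [lintegral_FF_fix, lintegral_const, measure_univ, mul_one]

theorem exp_half_le : Real.exp (-(1 / 2)) ≤ 13 / 20 := by
  have h1 : (20 / 13 : ℝ) ≤ Real.exp (1 / 2) := by
    have h2 := Real.quadratic_le_exp_of_nonneg (x := 1 / 2) (by norm_num)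
    linarith
  rw [Real.exp_neg]
  rw [inv_le_comm₀ (Real.exp_pos _) (by norm_num)]
  linarith

theorem FF_ge (lam : ℝ≥0) (B : Finset V) (o : V) (τ : ℕ) (ω : Om V) (r : ℝ)
    (h1 : r ≤ ((rset o τ ω \ B).card : ℝ))
    (h2 : ∑ v ∈ rset o τ ω \ B, ((ω.1 v).1 : ℝ) < lam * ((rset o τ ω \ B).card : ℝ) / 2) :
    ENNReal.ofReal (Real.exp (lam / 10 * r)) ≤ FF lam B o τ ω := by
  unfold FF wt
  rw [← ENNReal.ofReal_prod_of_nonneg fun v _ => Real.exp_nonneg _, ← Real.exp_sum]
  apply ENNReal.ofReal_le_ofReal
  apply Real.exp_le_exp.2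
  rw [Finset.sum_sub_distrib, Finset.sum_const, nsmul_eq_mul, ← Finset.sum_div]
  have hlam : (0 : ℝ) ≤ lam := lam.2
  have h3 : lam * (7 / 20 : ℝ) ≤ c0 lam := by
    unfold c0
    have := exp_half_le
    nlinarith
  set T : ℝ := ((rset o τ ω \ B).card : ℝ) with hT
  have hT0 : 0 ≤ T := Nat.cast_nonneg _
  have h4 : T * (lam * (7 / 20 : ℝ)) ≤ T * c0 lam := mul_le_mul_of_nonneg_left h3 hT0
  have h5 : lam * r ≤ lam * T := mul_le_mul_of_nonneg_left h1 hlam
  have h6 : 0 ≤ (lam : ℝ) * T := mul_nonneg hlam hT0
  linarith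

theorem taskWald : TaskWald := by
  intro V _ _ _ _ G _ B o τ lam r
  have h1 : (frog G lam) {ω | r ≤ ((rset o τ ω \ B).card : ℝ) ∧
        ∑ v ∈ rset o τ ω \ B, ((ω.1 v).1 : ℝ) < lam * ((rset o τ ω \ B).card : ℝ) / 2} ≤
      (frog G lam) {ω | ENNReal.ofReal (Real.exp (lam / 10 * r)) ≤ FF lam B o τ ω} := by
    apply measure_mono
    rintro ω ⟨h1, h2⟩
    exact FF_ge lam B o τ ω r h1 h2
  refine h1.trans ?_
  have h2 := meas_ge_le_lintegral_div (μ := frog G lam) (measurable_FF lam B o τ).aemeasurable
    (ε := ENNReal.ofReal (Real.exp (lam / 10 * r)))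
    (by rw [Ne, ENNReal.ofReal_eq_zero, not_le]; exact Real.exp_pos _) ENNReal.ofReal_ne_top
  refine h2.trans ?_
  rw [lintegral_FF, one_div, ← ENNReal.ofReal_inv_of_pos (Real.exp_pos _), ← Real.exp_neg]
  apply le_of_eq
  congr 2
  ring

end Final

end Pool.Agent.H211R3.FRWald
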